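import Pool.Agent.SOR.Stmts1

/-!
# TTT: the value of `τ` at `T`
-/

set_option autoImplicit false

open scoped BigOperators

noncomputable section

namespace Pool.Agent.SOR.H77

variable {Y : Type} {i : Fr →* Equiv.Perm Y} {u : Fr → Y → ℚ}

theorem cx_one (h : Cx i u) (y : Y) : u 1 y = 0 := by
  have h1 := h 1 1 y
  rw [mul_one, map_one, Equiv.Perm.one_apply] at h1
  linarith

theorem sum_hom [Fintype Y] (h : Cx i u) (g k : Fr) :
    ∑ y, u (g * k) y = ∑ y, u g y + ∑ y, u k y := by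
  rw [Finset.sum_congr rfl fun y _ => h g k y, Finset.sum_add_distrib,
    Equiv.sum_comp (i k) (u g)]

theorem sum_inv [Fintype Y] (h : Cx i u) (g : Fr) : ∑ y, u g⁻¹ y = - ∑ y, u g y := by
  have h1 := sum_hom h g g⁻¹
  rw [mul_inv_cancel, Finset.sum_congr rfl fun y _ => cx_one h y, Finset.sum_const_zero] at h1
  linarith

theorem sum_C [Fintype Y] (h : Cx i u) : ∑ y, u lC y = 0 := by
  unfold lC
  rw [sum_hom h, sum_hom h, sum_hom h, sum_inv h, sum_inv h]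
  ring

/-- the transport by `T` of an exact cocycle -/
theorem tw_T (h : Cx i u) (w : Fr) (y : Y) :
    tw (MulAut.conj lC) (i lC) u w y = u w y + u lC⁻¹ (i w y) - u lC⁻¹ y := by
  unfold tw
  have e1 : (MulAut.conj lC)⁻¹ w = lC⁻¹ * (w * lC) := by
    rw [← map_inv, MulAut.conj_apply, inv_inv, mul_assoc]
  have e2 : i lC ((i lC)⁻¹ y) = y := (i lC).apply_symm_apply y
  have e3 : i (w * lC) ((i lC)⁻¹ y) = i w y := by
    rw [map_mul, Equiv.Perm.mul_apply, e2]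
  have e4 : u (lC * lC⁻¹) y = 0 := by
    rw [mul_inv_cancel]
    exact cx_one h y
  have e5 := h lC lC⁻¹ y
  rw [e4, map_inv] at e5
  rw [e1, h, e3, h, e2]
  linarith

theorem ttt (hI : IvfStmt) : TttStmt := by
  classical
  intro Y _ R i x₁ x₂ h₁ h₂ hB r₁ r₂
  obtain ⟨-, -, -, -, hv, hvi, -⟩ := hI Y i
  have hact : ∀ w y, (i lC) (i w y) = i (MulAut.conj lC w) ((i lC) y) := by
    intro w y
    rw [MulAut.conj_apply, ← Equiv.Perm.mul_apply, ← Equiv.Perm.mul_apply, ← map_mul, ← map_mul]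
    congr 2
    group
  have hfix : MulAut.conj lC lC = lC := by
    rw [MulAut.conj_apply]
    group
  have hinv : ∀ (h : Y → ℚ), (∀ y, h (i lC y) = h y) → ∀ y, h ((i lC)⁻¹ y) = h y := by
    intro h hh y
    have h1 := hh ((i lC)⁻¹ y)
    have h2 : i lC ((i lC)⁻¹ y) = y := (i lC).apply_symm_apply y
    rw [h2] at h1
    exact h1.symm
  -- the function `j`
  have hx : ∀ (x : Fr → Y → ℚ) (h : Y → ℚ), Cx i x → (∀ y, h (i lC y) = h y) → ∀ (r : ℚ) w y,
      tw (MulAut.conj lC) (i lC) x w y - x w y - dl i (fun y => -(h y + r)) w y =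
        dl i (fun y => h ((i lC)⁻¹ y) - x lC ((i lC)⁻¹ y)) w y := by
    intro x h hxx hh r w y
    rw [tw_T hxx]
    unfold dl
    have e5 : ∀ z, x lC⁻¹ z = - x lC ((i lC)⁻¹ z) := by
      intro z
      have h1 := hxx lC lC⁻¹ z
      rw [mul_inv_cancel, cx_one hxx, map_inv] at h1
      linarith
    simp only [e5, hinv h hh]
    ring
  have hj : ∀ (x : Fr → Y → ℚ) (h : Y → ℚ), (∀ y, x lC y - h y ∈ R) → ∀ w y,
      dl i (fun y => h ((i lC)⁻¹ y) - x lC ((i lC)⁻¹ y)) w y ∈ R := by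
    intro x h hh w y
    unfold dl
    have h1 := R.neg_mem (hh ((i lC)⁻¹ (i w y)))
    have h2 := R.neg_mem (hh ((i lC)⁻¹ y))
    have h3 := R.sub_mem h1 h2
    rw [neg_sub, neg_sub] at h3
    exact h3
  refine ⟨⟨hact, hfix, hB.hc₁, hB.hc₂, ?_, ?_, ?_, ?_⟩, ?_⟩
  · intro w y
    rw [hx x₁ h₁ hB.ex₁ hB.hc₁]
    exact hj x₁ h₁ hB.xc₁ w y
  · intro w y
    rw [hx x₂ h₂ hB.ex₂ hB.hc₂]
    exact hj x₂ h₂ hB.xc₂ w y
  · intro y
    rw [hB.hc₁, sub_self]
    exact R.zero_mem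
  · intro y
    rw [hB.hc₂]
  · have he : eps i x₂ (MulAut.conj lC) (i lC) (fun y => -(h₂ y + r₂)) =
        dl i (fun y => h₂ ((i lC)⁻¹ y) - x₂ lC ((i lC)⁻¹ y)) := by
      funext w y
      exact hx x₂ h₂ hB.ex₂ hB.hc₂ r₂ w y
    have hT1 := (hvi (MulAut.conj lC) (i lC) hact hfix x₁ x₁ hB.ex₁ hB.ex₁).1
    have hI1 : Iv i (tw (MulAut.conj lC) (i lC) x₁)
        (dl i (fun y => h₂ ((i lC)⁻¹ y) - x₂ lC ((i lC)⁻¹ y))) =
        - ∑ y, x₁ lC y * (h₂ y - x₂ lC y) := by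
      rw [hv _ _ hT1]
      congr 1
      rw [← Equiv.sum_comp (i lC)⁻¹ (fun y => x₁ lC y * (h₂ y - x₂ lC y))]
      apply Finset.sum_congr rfl
      intro y _
      congr 1
      unfold tw
      have : (MulAut.conj lC)⁻¹ lC = lC := by
        rw [← map_inv, MulAut.conj_apply]
        group
      rw [this]
    have hs := sum_C hB.ex₂
    have key : tau i x₁ x₂ h₁ h₂ (MulAut.conj lC) (i lC) (fun y => -(h₁ y + r₁))
        (fun y => -(h₂ y + r₂)) - ∑ y, ((h₁ y + r₁) * (h₂ y + r₂) - r₁ * r₂) =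
        ∑ y, (x₁ lC y - h₁ y) * (x₂ lC y - h₂ y) := by
      unfold tau
      rw [he, hI1]
      have e1 : ∑ y, (x₁ lC y - h₁ y) * (x₂ lC y - h₂ y) =
          ∑ y, ((x₁ lC y - h₁ y) * (x₂ lC y - h₂ y) - r₁ * x₂ lC y) := by
        rw [Finset.sum_sub_distrib, ← Finset.mul_sum, hs]
        ring
      rw [e1, ← Finset.sum_neg_distrib, ← Finset.sum_sub_distrib, ← Finset.sum_sub_distrib,
        ← Finset.sum_sub_distrib]
      apply Finset.sum_congr rfl
      intro y _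
      ring
    rw [key]
    exact R.sum_mem fun y _ => R.mul_mem (hB.xc₁ y) (hB.xc₂ y)

end Pool.Agent.SOR.H77
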